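import Pool.Agent.N242.TG.Defs

/-! Project TG: Khintchine inequality with explicit constants. -/

set_option autoImplicit false

namespace Pool.Agent.N147.TG

open Pool.Agent.N242.TG Finset

theorem rs_not {ι : Type} [DecidableEq ι] {s : Finset ι} {a : ι → ℂ} {i : ι} {t : Finset ι}
    (hi : i ∉ s) (ht : t ⊆ s) : rs (insert i s) a t = rs s a t - a i := by
  unfold rs
  rw [sum_insert hi, if_neg (fun h => hi (ht h))]
  ring

theorem rs_ins {ι : Type} [DecidableEq ι] {s : Finset ι} {a : ι → ℂ} {i : ι} {t : Finset ι}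
    (hi : i ∉ s) : rs (insert i s) a (insert i t) = rs s a t + a i := by
  unfold rs
  rw [sum_insert hi, if_pos (mem_insert_self _ _), add_comm]
  congr 1
  refine sum_congr rfl fun j hj => ?_
  have hji : j ≠ i := by rintro rfl; exact hi hj
  simp [mem_insert, hji]

theorem step2 (y a : ℂ) : ‖y - a‖ ^ 2 + ‖y + a‖ ^ 2 = 2 * ‖y‖ ^ 2 + 2 * ‖a‖ ^ 2 := by
  have h := parallelogram_law_with_norm ℝ y a
  nlinarith

theorem step4 (y a : ℂ) : ‖y - a‖ ^ 4 + ‖y + a‖ ^ 4 ≤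
    2 * ‖y‖ ^ 4 + 12 * (‖a‖ ^ 2 * ‖y‖ ^ 2) + 2 * ‖a‖ ^ 4 := by
  have h1 := norm_add_sq_real y a
  have h2 := norm_sub_sq_real y a
  have h3 := abs_real_inner_le_norm y a
  have h4 : (inner ℝ y a) ^ 2 ≤ (‖y‖ * ‖a‖) ^ 2 := sq_le_sq' (by linarith [neg_abs_le (inner ℝ y a)])
    ((le_abs_self _).trans h3)
  have e1 : ‖y - a‖ ^ 4 = (‖y - a‖ ^ 2) ^ 2 := by ring
  have e2 : ‖y + a‖ ^ 4 = (‖y + a‖ ^ 2) ^ 2 := by ring
  rw [e1, e2, h1, h2]
  nlinarith

theorem mom2 {ι : Type} [DecidableEq ι] (s : Finset ι) (a : ι → ℂ) :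
    ∑ t ∈ s.powerset, ‖rs s a t‖ ^ 2 = 2 ^ s.card * ∑ i ∈ s, ‖a i‖ ^ 2 := by
  induction s using Finset.induction_on with
  | empty => simp [rs]
  | insert i s hi ih =>
    rw [sum_powerset_insert hi, ← sum_add_distrib, card_insert_of_notMem hi, sum_insert hi]
    have h1 : ∀ t ∈ s.powerset, ‖rs (insert i s) a t‖ ^ 2 + ‖rs (insert i s) a (insert i t)‖ ^ 2 =
        2 * ‖rs s a t‖ ^ 2 + 2 * ‖a i‖ ^ 2 := by
      intro t ht
      rw [rs_not hi (mem_powerset.1 ht), rs_ins hi, step2]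
    rw [sum_congr rfl h1, sum_add_distrib, ← mul_sum, ih, sum_const, card_powerset, nsmul_eq_mul]
    push_cast
    ring

theorem mom4 {ι : Type} [DecidableEq ι] (s : Finset ι) (a : ι → ℂ) :
    ∑ t ∈ s.powerset, ‖rs s a t‖ ^ 4 ≤ 2 ^ s.card * (3 * (∑ i ∈ s, ‖a i‖ ^ 2) ^ 2) := by
  induction s using Finset.induction_on with
  | empty => simp [rs]
  | insert i s hi ih =>
    rw [sum_powerset_insert hi, ← sum_add_distrib, card_insert_of_notMem hi, sum_insert hi]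
    have h1 : ∀ t ∈ s.powerset, ‖rs (insert i s) a t‖ ^ 4 + ‖rs (insert i s) a (insert i t)‖ ^ 4 ≤
        2 * ‖rs s a t‖ ^ 4 + 12 * (‖a i‖ ^ 2 * ‖rs s a t‖ ^ 2) + 2 * ‖a i‖ ^ 4 := by
      intro t ht
      rw [rs_not hi (mem_powerset.1 ht), rs_ins hi]
      exact step4 _ _
    refine (sum_le_sum h1).trans ?_
    rw [sum_add_distrib, sum_add_distrib, ← mul_sum, ← mul_sum, ← mul_sum, mom2, sum_const,
      card_powerset, nsmul_eq_mul]
    push_cast
    have h2 : (0 : ℝ) < 2 ^ s.card := by positivity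
    have h3 : 0 ≤ ∑ i ∈ s, ‖a i‖ ^ 2 := sum_nonneg fun _ _ => by positivity
    have h4 : 0 ≤ (2 : ℝ) ^ s.card * ‖a i‖ ^ 4 := by positivity
    rw [pow_succ (2 : ℝ) s.card]
    have e4 : ‖a i‖ ^ 4 = (‖a i‖ ^ 2) ^ 2 := by ring
    rw [e4] at h4 ⊢
    nlinarith

theorem t_Sign : StSign := by
  intro s a p hp2 hp4
  have hw0 : (0 : ℝ) < 2 ^ s.card := by positivity
  have hw : ∀ t ∈ s.powerset, 0 ≤ (fun _ : Finset (Finset ℕ) => (2 ^ s.card : ℝ)⁻¹) t :=
    fun t _ => by positivity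
  have hw' : ∑ t ∈ s.powerset, (fun _ : Finset (Finset ℕ) => (2 ^ s.card : ℝ)⁻¹) t = 1 := by
    rw [sum_const, card_powerset, nsmul_eq_mul]
    push_cast
    field_simp
  have hp0 : 0 < p := by linarith
  have hsig : 0 ≤ ∑ i ∈ s, ‖a i‖ ^ 2 := sum_nonneg fun _ _ => by positivity
  constructor
  · have h := Real.rpow_arith_mean_le_arith_mean_rpow s.powerset _ (fun t => ‖rs s a t‖ ^ 2) hw hw'
      (fun t _ => by positivity) (p := p / 2) (by linarith)
    rw [← mul_sum, mom2, inv_mul_cancel_left₀ hw0.ne', ← mul_sum] at h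
    refine h.trans (le_of_eq ?_)
    congr 1
    refine sum_congr rfl fun t _ => ?_
    rw [← Real.rpow_natCast, ← Real.rpow_mul (norm_nonneg _)]
    congr 1
    push_cast
    ring
  · have h := Real.rpow_arith_mean_le_arith_mean_rpow s.powerset _ (fun t => ‖rs s a t‖ ^ p) hw hw'
      (fun t _ => by positivity) (p := 4 / p) (by rw [le_div_iff₀ hp0]; linarith)
    rw [← mul_sum, ← mul_sum] at h
    have h1 : ∀ t ∈ s.powerset, (‖rs s a t‖ ^ p) ^ (4 / p) = ‖rs s a t‖ ^ 4 := by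
      intro t _
      rw [← Real.rpow_mul (norm_nonneg _), mul_div_cancel₀ _ hp0.ne', ← Real.rpow_natCast]
      norm_num
    rw [sum_congr rfl h1] at h
    have h2 : (2 ^ s.card : ℝ)⁻¹ * ∑ t ∈ s.powerset, ‖rs s a t‖ ^ 4 ≤
        3 * (∑ i ∈ s, ‖a i‖ ^ 2) ^ 2 := by
      have := mul_le_mul_of_nonneg_left (mom4 s a) (inv_nonneg.2 hw0.le)
      rwa [inv_mul_cancel_left₀ hw0.ne'] at this
    have h3 := h.trans h2
    set m : ℝ := (2 ^ s.card : ℝ)⁻¹ * ∑ t ∈ s.powerset, ‖rs s a t‖ ^ p with hm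
    have hm0 : 0 ≤ m := by
      rw [hm]
      have : 0 ≤ ∑ t ∈ s.powerset, ‖rs s a t‖ ^ p := sum_nonneg fun _ _ => by positivity
      positivity
    have h4 : (m ^ (4 / p)) ^ (p / 4) ≤ (3 * (∑ i ∈ s, ‖a i‖ ^ 2) ^ 2) ^ (p / 4) :=
      Real.rpow_le_rpow (by positivity) h3 (by positivity)
    rw [← Real.rpow_mul hm0] at h4
    have e1 : 4 / p * (p / 4) = 1 := by field_simp
    rw [e1, Real.rpow_one, Real.mul_rpow (by norm_num) (by positivity), ← Real.rpow_natCast,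
      ← Real.rpow_mul hsig] at h4
    have e2 : ((2 : ℕ) : ℝ) * (p / 4) = p / 2 := by push_cast; ring
    rw [e2] at h4
    refine h4.trans ?_
    refine mul_le_mul_of_nonneg_right ?_ (by positivity)
    calc (3 : ℝ) ^ (p / 4) ≤ 3 ^ (1 : ℝ) :=
          Real.rpow_le_rpow_of_exponent_le (by norm_num) (by linarith)
      _ = 3 := Real.rpow_one 3

end Pool.Agent.N147.TG
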