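import Pool.Agent.N242.TG.Defs

/-! Project TG: the square function is bounded on the open set. -/

set_option autoImplicit false

namespace Pool.Agent.N147.TG

open Pool.Agent.N242.TG Finset

/-- the values -/
noncomputable def vv (n : ℕ) (a b : ℝ) (S : Finset ℕ) : ℝ :=
  ∑ i ∈ S, (1 / 2 : ℝ) ^ (i + 1) * (b - ((i + 1 : ℝ) / n) * a)

theorem vv_eq (n : ℕ) (a b : ℝ) (S : Finset ℕ) : vv n a b S = th S * b - et n S * a := by
  unfold vv th et
  rw [sum_mul, sum_mul, ← sum_sub_distrib]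
  refine sum_congr rfl fun i _ => ?_
  ring

theorem geo (i n : ℕ) (h : i ≤ n) : ∑ j ∈ Finset.Ico i n, (1 / 2 : ℝ) ^ (j + 1) =
    (1 / 2 : ℝ) ^ i - (1 / 2 : ℝ) ^ n := by
  induction n, h using Nat.le_induction with
  | base => simp
  | succ n hn ih =>
    rw [Finset.sum_Ico_succ_top hn, ih, pow_succ]
    ring

theorem th_le {n : ℕ} {S : Finset ℕ} (hS : S ⊆ range n) : th S ≤ 1 := by
  unfold th
  calc ∑ i ∈ S, (1 / 2 : ℝ) ^ (i + 1) ≤ ∑ i ∈ range n, (1 / 2 : ℝ) ^ (i + 1) :=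
        sum_le_sum_of_subset_of_nonneg hS fun _ _ _ => by positivity
    _ = 1 - (1 / 2 : ℝ) ^ n := by
        rw [range_eq_Ico, geo 0 n (Nat.zero_le _), pow_zero]
    _ ≤ 1 := by
        have : (0 : ℝ) ≤ (1 / 2) ^ n := by positivity
        linarith

theorem th_nn (S : Finset ℕ) : 0 ≤ th S := sum_nonneg fun _ _ => by positivity

theorem et_nn (n : ℕ) (S : Finset ℕ) : 0 ≤ et n S := sum_nonneg fun _ _ => by positivity

theorem fr_le {n i : ℕ} (hi : i < n) : ((i + 1 : ℝ) / n) ≤ 1 := by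
  have hn : (0 : ℝ) < n := by exact_mod_cast (by omega : 0 < n)
  rw [div_le_one hn]
  exact_mod_cast hi

theorem et_le {n : ℕ} {S : Finset ℕ} (hS : S ⊆ range n) : et n S ≤ 1 := by
  refine le_trans ?_ (th_le hS)
  unfold et th
  refine sum_le_sum fun i hi => ?_
  have h1 := fr_le (mem_range.1 (hS hi))
  have h2 : (0 : ℝ) ≤ (1 / 2) ^ (i + 1) := by positivity
  nlinarith

theorem in_eq (n : ℕ) (S : Finset ℕ) (x : E 2) :
    inner ℝ (nv n S) x = x 2 - vv n (x 0) (x 1) S := by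
  rw [vv_eq, PiLp.inner_apply, Fin.sum_univ_three]
  simp [nv]
  ring

theorem nv_sq (n : ℕ) (S : Finset ℕ) : ‖nv n S‖ ^ 2 = et n S ^ 2 + th S ^ 2 + 1 := by
  rw [EuclideanSpace.norm_sq_eq, Fin.sum_univ_three]
  simp [nv]

theorem bern {N : ℕ} {u : ℝ} (h0 : 0 ≤ u) (h1 : u ≤ 1) : (1 - u) ^ N ≤ 1 / (1 + N * u) := by
  have h2 : (0 : ℝ) < 1 + N * u := by positivity
  rw [le_div_iff₀ h2]
  have h3 : 1 + (N : ℝ) * u ≤ (1 + u) ^ N := one_add_mul_le_pow (by linarith) N
  calc (1 - u) ^ N * (1 + N * u) ≤ (1 - u) ^ N * (1 + u) ^ N :=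
        mul_le_mul_of_nonneg_left h3 (pow_nonneg (by linarith) _)
    _ = (1 - u ^ 2) ^ N := by rw [← mul_pow]; ring
    _ ≤ 1 := pow_le_one₀ (by nlinarith) (by nlinarith)

theorem bm_le {n : ℕ} {S : Finset ℕ} (hS : S ⊆ range n) (x : Sph 2) :
    bm n S x ≤ 1 / (1 + 4 ^ n / 3 * ((x : E 2) 2 - vv n ((x : E 2) 0) ((x : E 2) 1) S) ^ 2) := by
  unfold bm
  have hx : ‖(x : E 2)‖ = 1 := by
    have := x.2
    rwa [mem_sphere_zero_iff_norm] at this
  have h1 := nv_sq n S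
  have h2 : ‖nv n S‖ ^ 2 ≤ 3 := by
    rw [h1]
    have := th_le hS
    have := th_nn S
    have := et_le hS
    have := et_nn n S
    nlinarith
  have h3 : 0 < ‖nv n S‖ ^ 2 := by rw [h1]; positivity
  have h4 : (inner ℝ (nv n S) (x : E 2)) ^ 2 ≤ ‖nv n S‖ ^ 2 := by
    have h5 := abs_real_inner_le_norm (nv n S) (x : E 2)
    rw [hx, mul_one] at h5
    exact sq_le_sq' (by linarith [neg_abs_le (inner ℝ (nv n S) (x : E 2))])
      ((le_abs_self _).trans h5)
  have h5 := bern (N := 4 ^ n) (u := (inner ℝ (nv n S) (x : E 2)) ^ 2 / ‖nv n S‖ ^ 2)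
    (by positivity) ((div_le_one h3).2 h4)
  refine h5.trans ?_
  rw [in_eq]
  refine one_div_le_one_div_of_le (by positivity) ?_
  set q := ((x : E 2) 2 - vv n ((x : E 2) 0) ((x : E 2) 1) S) ^ 2 with hq
  have hq0 : 0 ≤ q := by positivity
  push_cast
  have h6 : q / 3 ≤ q / ‖nv n S‖ ^ 2 := div_le_div_of_nonneg_left hq0 h3 h2
  have h7 : (0 : ℝ) ≤ 4 ^ n := by positivity
  have h8 := mul_le_mul_of_nonneg_left h6 h7
  have h9 : (4 : ℝ) ^ n / 3 * q = 4 ^ n * (q / 3) := by ring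
  rw [h9]
  linarith

/-- separation -/
theorem sep {n : ℕ} {a b : ℝ} (ha : 0 < a) (hab : 2 * a < b) {S S' : Finset ℕ}
    (hS : S ⊆ range n) (hS' : S' ⊆ range n) (hne : S ≠ S') :
    (1 / 2 : ℝ) ^ n * (b / 2) ≤ |vv n a b S - vv n a b S'| := by
  have key : ∀ S S' : Finset ℕ, S ⊆ range n → S' ⊆ range n → ∀ i0 ∈ S, i0 ∉ S' →
      (∀ i < i0, (i ∈ S ↔ i ∈ S')) → (1 / 2 : ℝ) ^ n * (b / 2) ≤ vv n a b S - vv n a b S' := by
    intro S S' hS hS' i0 hi0 hi0' hlt
    have hn0 : i0 < n := mem_range.1 (hS hi0)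
    set w : ℕ → ℝ := fun i => (1 / 2 : ℝ) ^ (i + 1) * (b - ((i + 1 : ℝ) / n) * a) with hw
    have hw0 : ∀ i < n, 0 ≤ w i := by
      intro i hi
      have h1 := fr_le hi
      have h2 : (0 : ℝ) ≤ (1 / 2) ^ (i + 1) := by positivity
      refine mul_nonneg h2 ?_
      nlinarith
    set c0 : ℝ := b - ((i0 + 1 : ℝ) / n) * a with hc0
    have hnp : (0 : ℝ) < n := by exact_mod_cast (by omega : 0 < n)
    have hw1 : ∀ i, i0 < i → i < n → w i ≤ (1 / 2 : ℝ) ^ (i + 1) * c0 := by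
      intro i hi hin
      refine mul_le_mul_of_nonneg_left ?_ (by positivity)
      have h1 : ((i0 + 1 : ℝ) / n) ≤ ((i + 1 : ℝ) / n) := by
        have h2 : (i0 : ℝ) ≤ i := by exact_mod_cast hi.le
        exact div_le_div_of_nonneg_right (by linarith) hnp.le
      have h3 := mul_le_mul_of_nonneg_right h1 ha.le
      rw [hc0]
      linarith
    have e1 : vv n a b S - vv n a b S' = ∑ i ∈ S \ S', w i - ∑ i ∈ S' \ S, w i := by
      have h1 : vv n a b S = ∑ i ∈ S \ S', w i + ∑ i ∈ S ∩ S', w i := by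
        rw [add_comm, Finset.sum_inter_add_sum_sdiff S S' w]; rfl
      have h2 : vv n a b S' = ∑ i ∈ S' \ S, w i + ∑ i ∈ S ∩ S', w i := by
        rw [add_comm, inter_comm, Finset.sum_inter_add_sum_sdiff S' S w]; rfl
      rw [h1, h2]
      ring
    rw [e1]
    have h1 : w i0 ≤ ∑ i ∈ S \ S', w i := by
      refine single_le_sum (f := w) (fun i hi => hw0 i ?_) (mem_sdiff.2 ⟨hi0, hi0'⟩)
      exact mem_range.1 (hS (mem_sdiff.1 hi).1)
    have h2 : ∑ i ∈ S' \ S, w i ≤ ∑ i ∈ Finset.Ico (i0 + 1) n, (1 / 2 : ℝ) ^ (i + 1) * c0 := by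
      have hsub : S' \ S ⊆ Finset.Ico (i0 + 1) n := by
        intro i hi
        rw [mem_sdiff] at hi
        rw [Finset.mem_Ico]
        refine ⟨?_, mem_range.1 (hS' hi.1)⟩
        rcases lt_trichotomy i i0 with h | h | h
        · exact absurd ((hlt i h).2 hi.1) hi.2
        · rw [h] at hi; exact absurd hi.1 hi0'
        · exact h
      have hc00 : 0 ≤ c0 := by
        have h1 := fr_le hn0
        rw [hc0]
        nlinarith
      calc ∑ i ∈ S' \ S, w i ≤ ∑ i ∈ S' \ S, (1 / 2 : ℝ) ^ (i + 1) * c0 := by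
            refine sum_le_sum fun i hi => ?_
            have := Finset.mem_Ico.1 (hsub hi)
            exact hw1 i this.1 this.2
        _ ≤ _ := sum_le_sum_of_subset_of_nonneg hsub fun i _ _ => by positivity
    rw [← sum_mul, geo _ _ hn0] at h2
    have h3 : w i0 = (1 / 2 : ℝ) ^ (i0 + 1) * c0 := rfl
    have h4 : (1 / 2 : ℝ) ^ n * (b / 2) ≤ (1 / 2 : ℝ) ^ n * c0 := by
      refine mul_le_mul_of_nonneg_left ?_ (by positivity)
      have h5 := mul_le_mul_of_nonneg_right (fr_le hn0) ha.le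
      rw [hc0]
      linarith
    have h5 : ((1 / 2 : ℝ) ^ (i0 + 1) - (1 / 2 : ℝ) ^ n) * c0 =
        (1 / 2 : ℝ) ^ (i0 + 1) * c0 - (1 / 2 : ℝ) ^ n * c0 := by ring
    rw [h5] at h2
    linarith
  -- the smallest element of the symmetric difference
  have hex : ∃ i, ¬ (i ∈ S ↔ i ∈ S') := by
    by_contra hcon
    push Not at hcon
    exact hne (Finset.ext hcon)
  classical
  set i0 := Nat.find hex with hi0
  have h1 : ¬ (i0 ∈ S ↔ i0 ∈ S') := Nat.find_spec hex
  have h2 : ∀ i < i0, (i ∈ S ↔ i ∈ S') := fun i hi => not_not.1 (Nat.find_min hex hi)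
  by_cases h3 : i0 ∈ S
  · have h4 : i0 ∉ S' := fun h => h1 (by simp [h3, h])
    exact (key S S' hS hS' i0 h3 h4 h2).trans (le_abs_self _)
  · have h4 : i0 ∈ S' := by
      by_contra h
      exact h1 (by simp [h3, h])
    have := key S' S hS' hS i0 h4 h3 (fun i hi => (h2 i hi).symm)
    rw [abs_sub_comm]
    exact this.trans (le_abs_self _)

theorem summ {κ : ℝ} (hκ : 0 < κ) : Summable (fun m : ℤ => 1 / (1 + κ * (m : ℝ) ^ 2)) := by
  have h1 : Summable (fun m : ℤ => (1 / κ) * (1 / (m : ℝ) ^ 2)) :=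
    (Real.summable_one_div_int_pow.2 (by norm_num)).mul_left _
  refine Summable.of_norm_bounded_eventually h1 ?_
  filter_upwards [Filter.eventually_cofinite_ne (0 : ℤ)] with m hm
  have hm' : (0 : ℝ) < (m : ℝ) ^ 2 := by positivity
  rw [Real.norm_of_nonneg (by positivity), one_div_mul_one_div]
  refine one_div_le_one_div_of_le (by positivity) ?_
  linarith

/-- sum over separated points -/
theorem sepsum {κ : ℝ} (hκ : 0 < κ) : ∃ C : ℝ, ∀ (ι : Type) (s : Finset ι) (v : ι → ℝ) (δ K y : ℝ),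
    0 < δ → κ ≤ K * δ ^ 2 → (∀ i ∈ s, ∀ j ∈ s, i ≠ j → δ ≤ |v i - v j|) →
    ∑ i ∈ s, 1 / (1 + K * (y - v i) ^ 2) ≤ C := by
  set g : ℤ → ℝ := fun m => 1 / (1 + κ * (m : ℝ) ^ 2) + 1 / (1 + κ * ((m + 1 : ℤ) : ℝ) ^ 2) with hg
  have hgs : Summable g := by
    refine (summ hκ).add ?_
    exact (Equiv.addRight (1 : ℤ)).summable_iff.2 (summ hκ)
  have hg0 : ∀ m, 0 ≤ g m := fun m => by rw [hg]; positivity
  refine ⟨∑' m, g m, ?_⟩
  intro ι s v δ K y hδ hK hsep
  classical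
  set fl : ι → ℤ := fun i => ⌊(v i - y) / δ⌋ with hfl
  have hinj : Set.InjOn fl s := by
    intro i hi j hj hij
    by_contra hne
    have h1 := hsep i hi j hj hne
    have h2 : |(v i - y) / δ - (v j - y) / δ| < 1 := Int.abs_sub_lt_one_of_floor_eq_floor hij
    rw [← sub_div, abs_div, abs_of_pos hδ, div_lt_one hδ] at h2
    have h3 : v i - y - (v j - y) = v i - v j := by ring
    rw [h3] at h2
    linarith
  have hK0 : 0 < K := by
    by_contra h
    rw [not_lt] at h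
    have := mul_nonpos_of_nonpos_of_nonneg h (sq_nonneg δ)
    linarith
  have hterm : ∀ i ∈ s, 1 / (1 + K * (y - v i) ^ 2) ≤ g (fl i) := by
    intro i _
    set z : ℝ := (v i - y) / δ with hz
    have h1 : K * (y - v i) ^ 2 = K * δ ^ 2 * z ^ 2 := by
      rw [hz]; field_simp; ring
    have h2 : κ * z ^ 2 ≤ K * (y - v i) ^ 2 := by
      rw [h1]; exact mul_le_mul_of_nonneg_right hK (sq_nonneg _)
    have h3 : (fl i : ℝ) ≤ z := Int.floor_le _
    have h4 : z < fl i + 1 := Int.lt_floor_add_one _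
    rcases le_or_gt 0 (fl i) with h | h
    · have h5 : (0 : ℝ) ≤ fl i := by exact_mod_cast h
      have h6 : (fl i : ℝ) ^ 2 ≤ z ^ 2 := pow_le_pow_left₀ h5 h3 2
      have h7 : 1 / (1 + K * (y - v i) ^ 2) ≤ 1 / (1 + κ * (fl i : ℝ) ^ 2) := by
        refine one_div_le_one_div_of_le (by positivity) ?_
        have := mul_le_mul_of_nonneg_left h6 hκ.le
        linarith
      refine h7.trans ?_
      have : 0 ≤ 1 / (1 + κ * ((fl i + 1 : ℤ) : ℝ) ^ 2) := by positivity
      rw [hg]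
      linarith
    · have h5 : (fl i : ℝ) + 1 ≤ 0 := by
        have : fl i + 1 ≤ 0 := h
        exact_mod_cast this
      have h6 : ((fl i + 1 : ℤ) : ℝ) ^ 2 ≤ z ^ 2 := by
        push_cast
        nlinarith
      have h7 : 1 / (1 + K * (y - v i) ^ 2) ≤ 1 / (1 + κ * ((fl i + 1 : ℤ) : ℝ) ^ 2) := by
        refine one_div_le_one_div_of_le (by positivity) ?_
        have := mul_le_mul_of_nonneg_left h6 hκ.le
        linarith
      refine h7.trans ?_
      have : 0 ≤ 1 / (1 + κ * (fl i : ℝ) ^ 2) := by positivity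
      rw [hg]
      linarith
  calc ∑ i ∈ s, 1 / (1 + K * (y - v i) ^ 2) ≤ ∑ i ∈ s, g (fl i) := sum_le_sum hterm
    _ = ∑ m ∈ s.image fl, g m := (sum_image hinj).symm
    _ ≤ ∑' m, g m := hgs.sum_le_tsum _ fun m _ => hg0 m

theorem vv_neg (n : ℕ) (a b : ℝ) (S : Finset ℕ) : vv n (-a) (-b) S = - vv n a b S := by
  rw [vv_eq, vv_eq]; ring

theorem t_Upper : StUpper := by
  obtain ⟨C, hC⟩ := sepsum (κ := 12 / 1000) (by norm_num)
  refine ⟨max C 40, ?_⟩
  intro n hn x hx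
  set x0 := (x : E 2) 0 with hx0
  set x1 := (x : E 2) 1 with hx1
  set x2 := (x : E 2) 2 with hx2
  have hnorm : x0 ^ 2 + x1 ^ 2 + x2 ^ 2 = 1 := by
    have h1 : ‖(x : E 2)‖ = 1 := by
      have := x.2
      rwa [mem_sphere_zero_iff_norm] at this
    have h2 := EuclideanSpace.norm_sq_eq (x : E 2)
    rw [h1, Fin.sum_univ_three] at h2
    simp only [Real.norm_eq_abs, sq_abs] at h2
    rw [hx0, hx1, hx2]
    linarith
  have hFF : FF n x ≤ ∑ S ∈ (range n).powerset, 1 / (1 + 4 ^ n / 3 * (x2 - vv n x0 x1 S) ^ 2) := by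
    unfold FF
    exact sum_le_sum fun S hS => bm_le (mem_powerset.1 hS) x
  refine hFF.trans ?_
  by_cases hc : 9 / 10 < |x2|
  · -- near the poles
    refine le_trans ?_ (le_max_right _ _)
    have h1 : ∀ S ∈ (range n).powerset, 1 / (1 + 4 ^ n / 3 * (x2 - vv n x0 x1 S) ^ 2) ≤
        40 * (1 / 4 ^ n) := by
      intro S hS
      rw [mem_powerset] at hS
      have t1 := th_le hS
      have t2 := th_nn S
      have t3 := et_le hS
      have t4 := et_nn n S
      have h2 : |vv n x0 x1 S| ≤ |x0| + |x1| := by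
        rw [vv_eq]
        calc |th S * x1 - et n S * x0| ≤ |th S * x1| + |et n S * x0| := abs_sub _ _
          _ = th S * |x1| + et n S * |x0| := by
              rw [abs_mul, abs_mul, abs_of_nonneg t2, abs_of_nonneg t4]
          _ ≤ |x0| + |x1| := by
              have := abs_nonneg x0
              have := abs_nonneg x1
              nlinarith
      have h3 : |x0| + |x1| ≤ 62 / 100 := by
        have a0 := abs_nonneg x0
        have a1 := abs_nonneg x1
        have a2 : |x0| ^ 2 = x0 ^ 2 := sq_abs _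
        have a3 : |x1| ^ 2 = x1 ^ 2 := sq_abs _
        have a4 : |x2| ^ 2 = x2 ^ 2 := sq_abs _
        have a5 : x0 ^ 2 + x1 ^ 2 ≤ 19 / 100 := by nlinarith
        nlinarith [sq_nonneg (|x0| - |x1|)]
      have h4 : 28 / 100 ≤ |x2 - vv n x0 x1 S| := by
        have := abs_sub_abs_le_abs_sub x2 (vv n x0 x1 S)
        linarith
      have h5 : 784 / 10000 ≤ (x2 - vv n x0 x1 S) ^ 2 := by
        rw [← sq_abs]
        nlinarith
      have h6 : (0 : ℝ) < 4 ^ n := by positivity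
      have h7 : (4 : ℝ) ^ n / 40 ≤ 1 + 4 ^ n / 3 * (x2 - vv n x0 x1 S) ^ 2 := by nlinarith
      calc 1 / (1 + 4 ^ n / 3 * (x2 - vv n x0 x1 S) ^ 2) ≤ 1 / (4 ^ n / 40) :=
            one_div_le_one_div_of_le (by positivity) h7
        _ = 40 * (1 / 4 ^ n) := by field_simp
    refine (sum_le_sum h1).trans ?_
    rw [sum_const, card_powerset, card_range, nsmul_eq_mul]
    push_cast
    have h2 : (2 : ℝ) ^ n ≤ 4 ^ n := pow_le_pow_left₀ (by norm_num) (by norm_num) n
    have h3 : (0 : ℝ) < 4 ^ n := by positivity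
    have h4 : (2 : ℝ) ^ n * (1 / 4 ^ n) ≤ 1 := by
      rw [mul_one_div, div_le_one h3]; exact h2
    linarith
  · refine le_trans ?_ (le_max_left _ _)
    rw [not_lt] at hc
    have hx' : 0 < x0 * x1 ∧ 2 * |x0| < |x1| := by
      rcases hx with h | h
      · exact absurd h (not_lt.2 hc)
      · exact h
    obtain ⟨hpos, hlt⟩ := hx'
    have hx22 : x2 ^ 2 ≤ 81 / 100 := by
      rw [← sq_abs]
      have := abs_nonneg x2
      nlinarith
    -- the case of positive coordinates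
    have key : ∀ a b y : ℝ, 0 < a → 2 * a < b → 19 / 100 ≤ a ^ 2 + b ^ 2 →
        ∑ S ∈ (range n).powerset, 1 / (1 + 4 ^ n / 3 * (y - vv n a b S) ^ 2) ≤ C := by
      intro a b y ha hab h19
      have hb : 38 / 100 ≤ b := by nlinarith
      refine hC (Finset ℕ) (range n).powerset (vv n a b) ((1 / 2 : ℝ) ^ n * (b / 2)) (4 ^ n / 3) y
        (by positivity) ?_ ?_
      · have h1 : (4 : ℝ) ^ n / 3 * ((1 / 2 : ℝ) ^ n * (b / 2)) ^ 2 = b ^ 2 / 12 := by
          have h2 : (4 : ℝ) ^ n * ((1 / 2 : ℝ) ^ n) ^ 2 = 1 := by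
            rw [← pow_mul, mul_comm n 2, pow_mul, ← mul_pow]
            norm_num
          calc (4 : ℝ) ^ n / 3 * ((1 / 2 : ℝ) ^ n * (b / 2)) ^ 2 =
                ((4 : ℝ) ^ n * ((1 / 2 : ℝ) ^ n) ^ 2) * (b ^ 2 / 12) := by ring
            _ = b ^ 2 / 12 := by rw [h2, one_mul]
        rw [h1]
        nlinarith
      · intro S hS S' hS' hne
        exact sep ha hab (mem_powerset.1 hS) (mem_powerset.1 hS') hne
    rcases pos_and_pos_or_neg_and_neg_of_mul_pos hpos with ⟨h0, h1⟩ | ⟨h0, h1⟩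
    · rw [abs_of_pos h0, abs_of_pos h1] at hlt
      exact key x0 x1 x2 h0 hlt (by nlinarith)
    · rw [abs_of_neg h0, abs_of_neg h1] at hlt
      have h2 := key (-x0) (-x1) (-x2) (by linarith) hlt (by nlinarith)
      refine le_trans (le_of_eq ?_) h2
      refine sum_congr rfl fun S _ => ?_
      rw [vv_neg]
      congr 2
      ring

end Pool.Agent.N147.TG
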